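import Pool.Agent.W98.OS.Defs

set_option autoImplicit false

namespace Pool.Agent.W287.OS

open Pool.Agent.W98.OS Polynomial

variable {K : Type} [Field K]

theorem Dd_comm (a b : K) : Dd a b = Dd b a := by
  unfold Dd; ring

theorem gK_anti (a b : K) : gK a b = - gK b a := by
  unfold gK
  rw [Dd_comm a b, ← neg_div]
  congr 1
  ring

theorem Gen_succAbove {n : ℕ} {y : Fin (n + 1) → K} (hy : Gen y) (k : Fin (n + 1)) :
    Gen (fun j => y (k.succAbove j)) := by
  refine ⟨fun i => hy.1 _, fun i j hij => hy.2 _ _ ?_⟩
  intro h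
  exact hij (Fin.succAbove_right_injective h)

omit [Field K] in
theorem perm_succAbove {n : ℕ} (y : Fin (n + 1) → K) (k : Fin (n + 1)) :
    (List.ofFn y).Perm (List.ofFn (fun j => y (k.succAbove j)) ++ [y k]) := by
  have h1 : (y k :: List.ofFn (fun j => y (k.succAbove j))).Perm (List.ofFn y) := by
    rw [← Multiset.coe_eq_coe, ← Multiset.cons_coe, ← Fin.univ_val_map, ← Fin.univ_val_map]
    rw [Fin.univ_succAbove n k]
    simp only [Finset.cons_val, Multiset.map_cons, Finset.map_val, Multiset.map_map]
    rfl
  exact h1.symm.trans (List.perm_append_singleton _ _).symm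

/-- The right hand side of the interpolation. -/
noncomputable def RR {n : ℕ} (y : Fin (n + 1) → K) : K[X] :=
  C (PP Dd y) * ∑ k : Fin (n + 1), C ((-1) ^ (k : ℕ) * pfG gK n (fun j => y (k.succAbove j))) *
    ((C (y k) - X) * ∏ j : Fin n,
      ((1 - C (y (k.succAbove j)) * X) * (1 - X - C (y (k.succAbove j)))))

theorem RR_natDegree {n : ℕ} (y : Fin (n + 1) → K) : (RR y).natDegree ≤ 2 * n + 1 := by
  unfold RR
  refine (natDegree_C_mul_le _ _).trans ?_
  refine natDegree_sum_le_of_forall_le _ _ ?_
  intro k _
  refine (natDegree_C_mul_le _ _).trans ?_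
  refine natDegree_mul_le.trans ?_
  have h1 : (C (y k) - X : K[X]).natDegree ≤ 1 := by
    refine (natDegree_sub_le _ _).trans ?_
    simp
  have h2 : (∏ j : Fin n, ((1 - C (y (k.succAbove j)) * X) *
      (1 - X - C (y (k.succAbove j)))) : K[X]).natDegree ≤ 2 * n := by
    refine (natDegree_prod_le _ _).trans ?_
    refine (Finset.sum_le_card_nsmul _ _ 2 ?_).trans ?_
    · intro j _
      refine natDegree_mul_le.trans ?_
      have h3 : (1 - C (y (k.succAbove j)) * X : K[X]).natDegree ≤ 1 := by
        refine (natDegree_sub_le _ _).trans ?_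
        refine max_le (by simp) ?_
        exact (natDegree_C_mul_le _ _).trans (by simp)
      have h4 : (1 - X - C (y (k.succAbove j)) : K[X]).natDegree ≤ 1 := by
        refine (natDegree_sub_le _ _).trans ?_
        refine max_le ?_ (by simp)
        refine (natDegree_sub_le _ _).trans ?_
        simp
      omega
    · simp [mul_comm]
  omega

theorem RR_eval {n : ℕ} (y : Fin (n + 1) → K) (t : K) : (RR y).eval t =
    PP Dd y * ∑ k : Fin (n + 1), (-1) ^ (k : ℕ) * pfG gK n (fun j => y (k.succAbove j)) *
      ((y k - t) * ∏ j : Fin n, Dd t (y (k.succAbove j))) := by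
  unfold RR
  simp only [eval_mul, eval_C, eval_finsetSum, eval_sub, eval_X, eval_prod, eval_one]
  congr 1
  refine Finset.sum_congr rfl fun k _ => ?_
  congr 2
  refine Finset.prod_congr rfl fun j _ => ?_
  unfold Dd
  ring

theorem RR_eval_good {n : ℕ} (y : Fin (n + 1) → K) (t : K) (h : ∀ j, Dd t (y j) ≠ 0) :
    (RR y).eval t = PP Dd y * (∏ j, Dd t (y j)) *
      pfG gK (n + 2) (Fin.cons t y : Fin (n + 2) → K) := by
  rw [RR_eval, pfG_cons, mul_assoc]
  congr 1
  rw [Finset.mul_sum]
  refine Finset.sum_congr rfl fun k _ => ?_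
  rw [Fin.prod_univ_succAbove _ k]
  have h1 : gK t (y k) = (y k - t) / Dd t (y k) := rfl
  rw [h1]
  field_simp [h k]

theorem key (hP : S_PERM) (hF : S_FRZ) (hA : S_ALT) (hR : S_REM) [CharZero K]
    {n : ℕ} (y : Fin (n + 1) → K)
    (hy : Gen y)
    (ih : ∀ y' : Fin n → K, Gen y' → Z0 (List.ofFn y') * Van y' = PP Dd y' * pfG gK n y')
    (p : K[X]) (hpd : p.degree < ((n + 1 : ℕ) : WithBot ℕ))
    (hp : ∀ t, Z0 (t :: List.ofFn y) = p.eval t) :
    p * (∏ j, (C (y j) - X)) * C (Van y) = RR y := by
  have hpn : p.natDegree ≤ n := by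
    by_cases h0 : p = 0
    · simp [h0]
    · rw [degree_eq_natDegree h0] at hpd
      have : p.natDegree < n + 1 := by exact_mod_cast hpd
      omega
  have hLd : (p * (∏ j, (C (y j) - X)) * C (Van y)).natDegree ≤ 2 * n + 1 := by
    refine (natDegree_mul_C_le _ _).trans ?_
    refine natDegree_mul_le.trans ?_
    have h2 : (∏ j, (C (y j) - X) : K[X]).natDegree ≤ n + 1 := by
      refine (natDegree_prod_le _ _).trans ?_
      refine (Finset.sum_le_card_nsmul _ _ 1 ?_).trans ?_
      · intro j _
        refine (natDegree_sub_le _ _).trans ?_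
        simp
      · simp
    omega
  have hdeg : (p * (∏ j, (C (y j) - X)) * C (Van y) - RR y).degree <
      (((Finset.univ : Finset (Fin (n + 1) ⊕ Fin (n + 1))).card : ℕ) : WithBot ℕ) := by
    have h1 : (p * (∏ j, (C (y j) - X)) * C (Van y) - RR y).natDegree ≤ 2 * n + 1 :=
      (natDegree_sub_le _ _).trans (max_le hLd (RR_natDegree y))
    have h2 : (Finset.univ : Finset (Fin (n + 1) ⊕ Fin (n + 1))).card = 2 * n + 2 := by
      simp
      ring
    rw [h2]
    refine lt_of_le_of_lt (degree_le_of_natDegree_le h1) ?_
    exact_mod_cast Nat.lt_succ_self _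
  refine Polynomial.eq_of_degree_sub_lt_of_eval_index_eq (s := Finset.univ)
    (v := Sum.elim y (fun k => (y k)⁻¹)) ?_ hdeg ?_
  · -- distinct nodes
    intro a _ b _ hab
    have hyy : ∀ i j, y i * y j ≠ 1 := by
      intro i j
      by_cases hij : i = j
      · subst hij
        exact (hy.1 i).2.2.1
      · exact (hy.2 i j hij).2.1
    have hinj : ∀ i j, y i = y j → i = j := by
      intro i j h
      by_contra hij
      exact (hy.2 i j hij).1 h
    rcases a with i | i <;> rcases b with j | j
    · simp only [Sum.elim_inl] at hab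
      rw [hinj i j hab]
    · simp only [Sum.elim_inl, Sum.elim_inr] at hab
      exfalso
      apply hyy i j
      rw [hab, inv_mul_cancel₀ (hy.1 j).1]
    · simp only [Sum.elim_inl, Sum.elim_inr] at hab
      exfalso
      apply hyy j i
      rw [← hab, inv_mul_cancel₀ (hy.1 i).1]
    · simp only [Sum.elim_inr] at hab
      rw [hinj i j (inv_injective hab)]
  · intro a _
    rcases a with k | k
    · -- node y k
      simp only [Sum.elim_inl]
      have h1 : ∀ j, Dd (y k) (y j) ≠ 0 := by
        intro j
        unfold Dd
        by_cases hjk : k = j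
        · subst hjk
          have h2 := (hy.1 k).2.2.1
          have h3 := (hy.1 k).2.1
          refine mul_ne_zero ?_ ?_
          · intro h
            apply h2
            linear_combination -h
          · intro h
            apply h3
            linear_combination -h
        · have h2 := (hy.2 k j hjk).2
          refine mul_ne_zero ?_ h2.2
          intro h
          apply h2.1
          linear_combination -h
      rw [RR_eval_good y (y k) h1]
      have h4 : pfG gK (n + 2) (Fin.cons (y k) y : Fin (n + 2) → K) = 0 := by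
        apply hA K K gK gK_anti
        intro hinj
        have h5 : (0 : Fin (n + 2)) = k.succ := hinj (by simp)
        exact (Fin.succ_ne_zero k) h5.symm
      rw [h4, mul_zero]
      simp only [eval_mul, eval_C, eval_prod, eval_sub, eval_X]
      rw [Finset.prod_eq_zero (Finset.mem_univ k) (sub_self _)]
      ring
    · -- node (y k)⁻¹
      simp only [Sum.elim_inr]
      set t : K := (y k)⁻¹ with ht
      have htk : t * y k = 1 := inv_mul_cancel₀ (hy.1 k).1
      have hR0 : (RR y).eval t = PP Dd y * ((-1) ^ (k : ℕ) *
          pfG gK n (fun j => y (k.succAbove j)) *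
          ((y k - t) * ∏ j : Fin n, Dd t (y (k.succAbove j)))) := by
        rw [RR_eval]
        congr 1
        refine Finset.sum_eq_single k ?_ (by simp)
        intro k' _ hk'
        obtain ⟨j, hj⟩ := Fin.exists_succAbove_eq hk'.symm
        have h0 : ∏ j : Fin n, Dd t (y (k'.succAbove j)) = 0 := by
          refine Finset.prod_eq_zero (Finset.mem_univ j) ?_
          rw [hj]
          unfold Dd
          rw [htk]
          ring
        rw [h0]
        ring
      rw [hR0]
      simp only [eval_mul, eval_C, eval_prod, eval_sub, eval_X]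
      rw [← hp t]
      have hperm : (t :: List.ofFn y).Perm
          (t :: (List.ofFn (fun j => y (k.succAbove j)) ++ [y k])) :=
        List.Perm.cons _ (perm_succAbove y k)
      rw [(hP K _ _ hperm).1, (hF K t (y k) _ htk).1]
      rw [List.map_ofFn, List.prod_ofFn]
      have hvan := (hR K n y k).1
      have hpp := (hR K n y k).2 Dd Dd_comm
      have ihk := ih _ (Gen_succAbove hy k)
      rw [hvan, hpp, Fin.prod_univ_succAbove _ k]
      have hprod : (∏ j : Fin n, ((fun s => (1 - t - s) * (1 - s - y k)) ∘
            fun j => y (k.succAbove j)) j) * (∏ j : Fin n, (y (k.succAbove j) - t)) *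
            (∏ j : Fin n, (y (k.succAbove j) - y k)) =
          (∏ j : Fin n, Dd (y k) (y (k.succAbove j))) *
            (∏ j : Fin n, Dd t (y (k.succAbove j))) := by
        rw [← Finset.prod_mul_distrib, ← Finset.prod_mul_distrib, ← Finset.prod_mul_distrib]
        refine Finset.prod_congr rfl fun j _ => ?_
        simp only [Function.comp]
        unfold Dd
        have h5 : (y (k.succAbove j) - t) * (y (k.succAbove j) - y k) =
            (1 - y k * y (k.succAbove j)) * (1 - t * y (k.succAbove j)) := by
          linear_combination (1 - y (k.succAbove j) ^ 2) * htk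
        linear_combination ((1 - t - y (k.succAbove j)) * (1 - y (k.succAbove j) - y k)) * h5
      linear_combination (((-1) ^ (k : ℕ)) * (y k - t) *
        (Z0 (List.ofFn fun j => y (k.succAbove j)) * Van (fun j => y (k.succAbove j)))) * hprod +
        (((-1) ^ (k : ℕ)) * (y k - t) * (∏ j : Fin n, Dd (y k) (y (k.succAbove j))) *
            (∏ j : Fin n, Dd t (y (k.succAbove j)))) * ihk

theorem T_INTE (hP : S_PERM) (hD : S_DEG) (hF : S_FRZ) (hA : S_ALT) (hR : S_REM) :
    Pool.Agent.W98.OS.S_INTE := by
  intro K _ _ m
  induction m using Nat.strong_induction_on with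
  | _ m IH =>
    intro x hm hx
    rcases m with _ | _ | n
    · simp [Van, PP, pfG, Pool.Agent.Helper929.pf, Z0, Ef, zs, Zf]
    · exact absurd hm (by decide)
    · have hn : Even n := by
        rw [Nat.even_iff] at hm ⊢
        omega
      obtain ⟨x0, y, rfl⟩ : ∃ (x0 : K) (y : Fin (n + 1) → K), x = Fin.cons x0 y :=
        ⟨x 0, Fin.tail x, (Fin.cons_self_tail x).symm⟩
      have hy : Gen y := by
        have := Gen_succAbove hx 0
        simpa using this
      obtain ⟨⟨p, hpd, hp⟩, -⟩ := hD K (List.ofFn y)
      rw [List.length_ofFn] at hpd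
      have hk := key hP hF hA hR y hy (fun y' hy' => IH n (by omega) y' hn hy') p hpd hp
      have he := congrArg (fun q : K[X] => q.eval x0) hk
      have hD0 : ∀ j, Dd x0 (y j) ≠ 0 := by
        intro j
        have h2 := (hx.2 0 j.succ (Fin.succ_ne_zero j).symm).2
        simp only [Fin.cons_zero, Fin.cons_succ] at h2
        unfold Dd
        refine mul_ne_zero ?_ h2.2
        intro h
        apply h2.1
        linear_combination -h
      rw [RR_eval_good y x0 hD0] at he
      simp only [eval_mul, eval_C, eval_prod, eval_sub, eval_X] at he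
      rw [← hp x0] at he
      have hvan := (hR K (n + 1) (Fin.cons x0 y : Fin (n + 2) → K) 0).1
      have hpp := (hR K (n + 1) (Fin.cons x0 y : Fin (n + 2) → K) 0).2 Dd Dd_comm
      simp only [Fin.succAbove_zero, Fin.cons_succ, Fin.cons_zero, Fin.val_zero, pow_zero,
        one_mul] at hvan hpp
      have hofn : List.ofFn (Fin.cons x0 y : Fin (n + 2) → K) = x0 :: List.ofFn y := by
        rw [List.ofFn_succ]
        simp
      rw [hofn, hvan, hpp]
      linear_combination he

end Pool.Agent.W287.OS
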