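import Pool.Agent.W98.OS.Defs

set_option autoImplicit false

namespace Pool.Agent.W287.OS

open Pool.Agent.W98.OS

section nat

variable {R S : Type*} [CommRing R] [CommRing S] (f : R →+* S)

theorem kap_map (x : R) : f (kap x) = kap (f x) := by
  simp [kap]

theorem row_map (x : R) : ∀ (ys : List R) (h : Bool) (vs : List Bool) (F : List Bool → R),
    f (row x h ys vs F) = row (f x) h (ys.map f) vs (fun u => f (F u)) := by
  intro ys
  induction ys with
  | nil =>
    intro h vs F
    cases vs with
    | nil => cases h <;> simp [row]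
    | cons v vs => cases h <;> simp [row]
  | cons y ys ih =>
    intro h vs F
    cases vs with
    | nil => cases h <;> simp [row]
    | cons v vs =>
      cases h <;> cases v <;> simp [row, ih, kap_map]

theorem Ef_map : ∀ (xs : List R) (vs : List Bool), f (Ef xs vs) = Ef (xs.map f) vs := by
  intro xs
  induction xs with
  | nil =>
    intro vs
    cases vs <;> simp [Ef, Zf]
  | cons x xs ih =>
    intro vs
    cases vs with
    | nil => simp [Ef, Zf]
    | cons v vs =>
      have ih' : (fun u => f (Zf (fun _ => 1) 0 xs u)) = Zf (fun _ => 1) 0 (xs.map f) := by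
        funext u
        exact ih u
      cases v <;> simp [Ef, Zf, row_map, ih']

theorem Wf_map : ∀ (xs : List R) (vs : List Bool), f (Wf xs vs) = Wf (xs.map f) vs := by
  intro xs
  induction xs with
  | nil =>
    intro vs
    cases vs <;> simp [Wf]
  | cons x xs ih =>
    intro vs
    cases vs with
    | nil => simp [Wf]
    | cons v vs =>
      have ih' : (fun u => f (Wf xs u)) = Wf (xs.map f) := by
        funext u
        exact ih u
      have ih2 : (fun u => f (Ef xs u)) = Ef (xs.map f) := by
        funext u
        exact Ef_map f xs u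
      have h20 : f 2 = 2 := map_ofNat f 2
      have h3 : f (xs.map fun y => 1 - 2 * y).prod = ((xs.map f).map fun y => 1 - 2 * y).prod := by
        rw [map_list_prod, List.map_map, List.map_map]
        congr 2
        funext y
        simp [h20]
      cases v <;> simp only [Wf, List.map_cons, map_add, map_mul, map_sub, map_one, h20,
        row_map, ih', ih2, h3, kap_map]

theorem W0_map (l : List R) : f (W0 l) = W0 (l.map f) := by
  unfold W0
  rw [Wf_map, List.length_map]

end nat

open MvPowerSeries

/-- The ring of power series. -/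
abbrev RP (m : ℕ) : Type := MvPowerSeries (Fin m) ℚ

/-- Its field of fractions. -/
abbrev KP (m : ℕ) : Type := FractionRing (RP m)

theorem cc_two {m : ℕ} : constantCoeff (2 : MvPowerSeries (Fin m) ℚ) = 2 :=
  map_ofNat _ 2

instance (m : ℕ) : CharZero (RP m) := by
  refine ⟨fun a b hab => ?_⟩
  have h : constantCoeff (a : RP m) = constantCoeff (b : RP m) := congrArg _ hab
  rw [map_natCast, map_natCast] at h
  exact_mod_cast h

instance (m : ℕ) : CharZero (KP m) := by
  refine ⟨fun a b hab => ?_⟩
  have h : algebraMap (RP m) (KP m) (a : RP m) = algebraMap (RP m) (KP m) (b : RP m) := by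
    rw [map_natCast, map_natCast]
    exact hab
  exact_mod_cast IsFractionRing.injective (RP m) (KP m) h

/-- The kernel as a family of power series. -/
noncomputable def gR (m : ℕ) : Option (Fin m) → Option (Fin m) → MvPowerSeries (Fin m) ℚ
  | some i, some j => (X j - X i) * (Dd (X i) (X j))⁻¹
  | some i, none => (1 - 2 * X i)⁻¹
  | none, some i => - (1 - 2 * X i)⁻¹
  | none, none => 0

theorem cc_Dd {m : ℕ} (i j : Fin m) :
    constantCoeff (Dd (X i : MvPowerSeries (Fin m) ℚ) (X j)) = 1 := by
  simp [Dd]

theorem cc_one_sub {m : ℕ} (i : Fin m) :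
    constantCoeff (1 - 2 * X i : MvPowerSeries (Fin m) ℚ) = 1 := by
  simp

theorem gR_anti {m : ℕ} : ∀ a b, gR m a b = - gR m b a := by
  rintro (_ | i) (_ | j)
  · simp [gR]
  · simp [gR]
  · simp [gR]
  · have h : Dd (X i : MvPowerSeries (Fin m) ℚ) (X j) = Dd (X j) (X i) := by
      unfold Dd; ring
    simp only [gR]
    rw [h]
    ring

/-- geometric series -/
theorem geom {m : ℕ} (i : Fin m) (d : Fin m →₀ ℕ) :
    coeff d (1 - 2 * X i : MvPowerSeries (Fin m) ℚ)⁻¹ =
      if (∀ k, k ≠ i → d k = 0) then 2 ^ (d i) else 0 := by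
  classical
  set s : MvPowerSeries (Fin m) ℚ := fun d => if (∀ k, k ≠ i → d k = 0) then 2 ^ (d i) else 0
    with hs
  have hc : ∀ d, coeff d s = if (∀ k, k ≠ i → d k = 0) then 2 ^ (d i) else 0 := fun d => rfl
  have h1 : (1 - 2 * X i) * s = 1 := by
    have h2 : (1 - 2 * X i) * s = s - 2 * (s * X i) := by ring
    rw [h2]
    ext d
    rw [map_sub, coeff_one]
    have h3 : coeff d (2 * (s * X i)) = 2 * coeff d (s * X i) := by
      have : (2 : MvPowerSeries (Fin m) ℚ) = C 2 := (map_ofNat C 2).symm
      rw [this, coeff_C_mul]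
    rw [h3, X, coeff_mul_monomial, mul_one, hc]
    by_cases hle : Finsupp.single i 1 ≤ d
    · rw [if_pos hle, hc]
      have hd0 : d ≠ 0 := by
        rintro rfl
        have := hle i
        simp at this
      rw [if_neg hd0]
      have hdi : 1 ≤ d i := by
        have := hle i
        simpa using this
      have e1 : (∀ k, k ≠ i → (d - Finsupp.single i 1 : Fin m →₀ ℕ) k = 0) ↔ (∀ k, k ≠ i → d k = 0) := by
        refine forall_congr' fun k => forall_congr' fun hk => ?_
        rw [Finsupp.tsub_apply, Finsupp.single_eq_of_ne hk]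
        simp
      have e2 : (d - Finsupp.single i 1 : Fin m →₀ ℕ) i = d i - 1 := by
        rw [Finsupp.tsub_apply, Finsupp.single_eq_same]
      simp only [e1, e2]
      by_cases h : (∀ k, k ≠ i → d k = 0)
      · rw [if_pos h, if_pos h]
        obtain ⟨n, hn⟩ : ∃ n, d i = n + 1 := ⟨d i - 1, by omega⟩
        rw [hn, Nat.add_sub_cancel, pow_succ]
        ring
      · rw [if_neg h, if_neg h]
        ring
    · rw [if_neg hle]
      have hdi : d i = 0 := by
        by_contra h
        apply hle
        intro k
        by_cases hk : k = i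
        · subst hk
          simp
          omega
        · rw [Finsupp.single_eq_of_ne hk]
          exact Nat.zero_le _
      have e1 : (∀ k, k ≠ i → d k = 0) ↔ d = 0 := by
        constructor
        · intro h
          ext k
          by_cases hk : k = i
          · subst hk
            simpa using hdi
          · simpa using h k hk
        · rintro rfl k _
          rfl
      simp only [e1, hdi]
      simp
  have h4 : (1 - 2 * X i : MvPowerSeries (Fin m) ℚ)⁻¹ = s := by
    have h5 : (1 - 2 * X i : MvPowerSeries (Fin m) ℚ)⁻¹ * (1 - 2 * X i) = 1 :=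
      MvPowerSeries.inv_mul_cancel _ (by rw [cc_one_sub]; exact one_ne_zero)
    calc (1 - 2 * X i : MvPowerSeries (Fin m) ℚ)⁻¹
        = (1 - 2 * X i : MvPowerSeries (Fin m) ℚ)⁻¹ * ((1 - 2 * X i) * s) := by rw [h1, mul_one]
      _ = s := by rw [← mul_assoc, h5, one_mul]
  rw [h4, hc]

theorem T_LIM (h1 : S_INTO) (h2 : S_SER) (h3 : S_COEF) (h4 : S_VC) :
    Pool.Agent.W98.OS.S_LIM := by
  intro n
  set m : ℕ := 2 * n + 1 with hm
  have hinj : Function.Injective (algebraMap (RP m) (KP m)) := IsFractionRing.injective (RP m) (KP m)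
  obtain ⟨x, hx⟩ : ∃ x : Fin m → KP m, ∀ i, x i = algebraMap (RP m) (KP m) (X i) := ⟨_, fun i => rfl⟩
  have hA2 : algebraMap (RP m) (KP m) 2 = 2 := map_ofNat _ 2
  have hne : ∀ a b : RP m, constantCoeff a ≠ constantCoeff b → algebraMap (RP m) (KP m) a ≠ algebraMap (RP m) (KP m) b := by
    intro a b hab h
    exact hab (congrArg _ (hinj h))
  have hXne : ∀ i : Fin m, algebraMap (RP m) (KP m) (X i) ≠ 0 := by
    intro i h
    have h' : (X i : RP m) = 0 := hinj (by rw [h, map_zero])
    have h'' := congrArg (coeff (Finsupp.single i 1)) h'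
    rw [coeff_X, if_pos rfl, map_zero] at h''
    exact one_ne_zero h''
  have hGen : Gen x := by
    refine ⟨fun i => ⟨by rw [hx]; exact hXne i, ?_, ?_, ?_⟩, fun i j hij => ⟨?_, ?_, ?_⟩⟩
    · have := hne (2 * X i) 1 (by simp)
      rw [map_mul, hA2, map_one, ← hx] at this
      exact this
    · have := hne (X i * X i) 1 (by simp)
      rw [map_mul, map_one, ← hx] at this
      exact this
    · have := hne (X i) 2 (by rw [cc_two]; simp)
      rw [hA2, ← hx] at this
      exact this
    · intro h
      have h' : (X i : RP m) = X j := hinj (by rw [← hx, ← hx]; exact h)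
      have h'' := congrArg (coeff (Finsupp.single i 1)) h'
      rw [coeff_X, if_pos rfl, coeff_X, if_neg] at h''
      · exact one_ne_zero h''
      · intro h5
        have := DFunLike.congr_fun h5 i
        rw [Finsupp.single_eq_same, Finsupp.single_eq_of_ne hij] at this
        exact one_ne_zero this
    · have := hne (X i * X j) 1 (by simp)
      rw [map_mul, map_one, ← hx, ← hx] at this
      exact this
    · have := hne (1 - X i - X j) 0 (by simp)
      rw [map_sub, map_sub, map_one, map_zero, ← hx, ← hx] at this
      exact this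
  have hodd : Odd m := ⟨n, hm⟩
  have hI := h1 (KP m) m x hodd hGen
  -- the images
  have hinvmap : ∀ a : RP m, constantCoeff a ≠ 0 → algebraMap (RP m) (KP m) a⁻¹ = (algebraMap (RP m) (KP m) a)⁻¹ := by
    intro a ha
    apply eq_inv_of_mul_eq_one_left
    rw [← map_mul, MvPowerSeries.inv_mul_cancel _ ha, map_one]
  have hDdmap : ∀ a b : RP m, algebraMap (RP m) (KP m) (Dd a b) = Dd (algebraMap (RP m) (KP m) a) (algebraMap (RP m) (KP m) b) := by
    intro a b
    simp [Dd]
  have hg : ∀ i j : Fin (m + 1), gO (addN x i) (addN x j) =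
      algebraMap (RP m) (KP m) (gR m (addN (fun i : Fin m => i) i) (addN (fun i : Fin m => i) j)) := by
    intro i j
    induction i using Fin.lastCases with
    | last =>
      induction j using Fin.lastCases with
      | last => simp [addN, gO, gR]
      | cast j =>
        simp only [addN, Fin.snoc_last, Fin.snoc_castSucc, gO, gR, map_neg]
        rw [hinvmap _ (by rw [cc_one_sub]; exact one_ne_zero)]
        rw [map_sub, map_mul, hA2, map_one, ← hx, one_div]
    | cast i =>
      induction j using Fin.lastCases with
      | last =>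
        simp only [addN, Fin.snoc_last, Fin.snoc_castSucc, gO, gR]
        rw [hinvmap _ (by rw [cc_one_sub]; exact one_ne_zero)]
        rw [map_sub, map_mul, hA2, map_one, ← hx, one_div]
      | cast j =>
        simp only [addN, Fin.snoc_castSucc, gO, gR, gK, map_mul]
        rw [hinvmap _ (by rw [cc_Dd]; exact one_ne_zero), hDdmap, map_sub, ← hx, ← hx,
          div_eq_mul_inv]
  have hpf : pfG gO (m + 1) (addN x) =
      algebraMap (RP m) (KP m) (pfG (gR m) (m + 1) (addN (fun i : Fin m => i))) := by
    unfold pfG
    rw [Pool.Agent.Helper929.pf_map]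
    congr 1
    ext i j
    exact hg i j
  have hW : W0 (List.ofFn x) = algebraMap (RP m) (KP m) (W0 (List.ofFn (fun i : Fin m => (X i : RP m)))) := by
    rw [W0_map, List.map_ofFn]
    congr 2
    funext i
    exact hx i
  have hV : Van x = algebraMap (RP m) (KP m) (Van (fun i : Fin m => (X i : RP m))) := by
    unfold Van
    rw [map_prod]
    refine Finset.prod_congr rfl fun i _ => ?_
    rw [map_prod]
    refine Finset.prod_congr rfl fun j _ => ?_
    rw [map_sub, ← hx, ← hx]
  have hPP : PP Dd x = algebraMap (RP m) (KP m) (PP Dd (fun i : Fin m => (X i : RP m))) := by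
    unfold PP
    rw [map_prod]
    refine Finset.prod_congr rfl fun i _ => ?_
    rw [map_prod]
    refine Finset.prod_congr rfl fun j _ => ?_
    rw [hDdmap, ← hx, ← hx]
  have hQ : (∏ i, (1 - 2 * x i)) = algebraMap (RP m) (KP m) (∏ i : Fin m, (1 - 2 * X i : RP m)) := by
    rw [map_prod]
    refine Finset.prod_congr rfl fun i _ => ?_
    rw [map_sub, map_mul, hA2, map_one, ← hx]
  have hR : W0 (List.ofFn (fun i : Fin m => (X i : RP m))) * Van (fun i : Fin m => (X i : RP m)) =
      PP Dd (fun i : Fin m => (X i : RP m)) * (∏ i : Fin m, (1 - 2 * X i : RP m)) *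
        pfG (gR m) (m + 1) (addN (fun i : Fin m => i)) := by
    apply hinj
    rw [map_mul, map_mul, map_mul, ← hW, ← hV, ← hPP, ← hQ, ← hpf]
    exact hI
  have hco := congrArg (coeff (e0 m)) hR
  rw [h4 m, h3 m (gR m) gR_anti] at hco
  · have c1 : constantCoeff (W0 (List.ofFn (fun i : Fin m => (X i : RP m)))) =
        W0 (List.replicate m (0 : ℚ)) := by
      rw [W0_map, List.map_ofFn]
      congr 1
      rw [← List.ofFn_const]
      congr 1
      funext i
      simp
    have c2 : constantCoeff (PP Dd (fun i : Fin m => (X i : RP m)) *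
        (∏ i : Fin m, (1 - 2 * X i : RP m))) = 1 := by
      rw [map_mul, map_prod]
      unfold PP
      rw [map_prod]
      rw [Finset.prod_eq_one, Finset.prod_eq_one, mul_one]
      · intro i _
        exact cc_one_sub i
      · intro i _
        rw [map_prod]
        exact Finset.prod_eq_one fun j _ => cc_Dd i j
    rw [c1, c2, one_mul] at hco
    exact hco
  · intro i j hij d
    refine (h2 m i j hij _ ?_ d).trans ?_
    · simp only [gR]
      rw [mul_assoc]
      have : (1 - X i * X j) * (1 - X i - X j) = Dd (X i : RP m) (X j) := rfl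
      rw [this, MvPowerSeries.inv_mul_cancel _ (by rw [cc_Dd]; exact one_ne_zero), mul_one]
    · rfl
  · intro i d
    exact geom i d

end Pool.Agent.W287.OS
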